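import Mathlib
import Pool.Agent.Lib_helper28.GL.Glue
import Pool.Agent.Lib_helper59.NEG.Wit

/-!
# Case (a), thin region: the group theory
-/

set_option autoImplicit false

namespace Pool.Agent.CA

open Finset Pool.Agent.GL Pool.Agent.NEG

variable {G : Type*} [AddCommGroup G]

/-- if the level of `K ≤ ker chi` is less than `2 m` then `G / K` has exponent `m` -/
theorem exp_nsmul [Finite G] {m : ℕ} [NeZero m] (chi : G →+ ZMod m)
    (hchi : Function.Surjective chi) (K : AddSubgroup G) (hK : ∀ x ∈ K, chi x = 0)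
    (h2 : ¬ Alive K (2 * m)) (g : G) : m • g ∈ K := by
  classical
  have : Finite (G ⧸ K) := inferInstance
  obtain ⟨gb, hgb⟩ := AddMonoid.exists_addOrderOf_eq_exponent (G := G ⧸ K)
    (AddMonoid.ExponentExists.of_finite)
  obtain ⟨x, rfl⟩ := QuotientAddGroup.mk_surjective gb
  set E := AddMonoid.exponent (G ⧸ K) with hE
  have hEpos : 0 < E := by
    rw [hE]; exact AddMonoid.exponent_pos.2 (AddMonoid.ExponentExists.of_finite)
  have hall : ∀ y : G, E • y ∈ K := by
    intro y
    rw [← QuotientAddGroup.eq_zero_iff, QuotientAddGroup.mk_nsmul]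
    exact AddMonoid.exponent_nsmul_eq_zero _
  have hmE : m ∣ E := by
    obtain ⟨y, hy⟩ := hchi 1
    have h1 := hK _ (hall y)
    rw [map_nsmul, hy, nsmul_eq_mul, mul_one] at h1
    exact (ZMod.natCast_eq_zero_iff E m).1 h1
  obtain ⟨c, hc⟩ := hmE
  have hc1 : c = 1 := by
    by_contra hne
    have hc2 : 2 ≤ c := by
      rcases c with _ | _ | c
      · simp at hc; omega
      · omega
      · omega
    apply h2
    refine ⟨x, fun i h0 h1 h3 => ?_⟩
    have h4 : E ∣ i := by
      rw [← hgb]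
      rw [← QuotientAddGroup.eq_zero_iff, QuotientAddGroup.mk_nsmul] at h3
      exact addOrderOf_dvd_iff_nsmul_eq_zero.2 h3
    have h5 := Nat.le_of_dvd h0 h4
    have h6 : 2 * m ≤ E := by rw [hc]; nlinarith [Nat.pos_of_ne_zero (NeZero.ne m)]
    omega
  rw [hc1, mul_one] at hc
  rw [← hc]
  exact hall g

/-- Cauchy between `K` and `L` -/
theorem exists_between [Finite G] (K L : AddSubgroup G) (hKL : K ≤ L) (q p : ℕ)
    (hq : Nat.card L = q * Nat.card K) (hp : p.Prime) (hpq : p ∣ q) :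
    ∃ (x : G) (M : AddSubgroup G), x ∉ K ∧ p • x ∈ K ∧ M ≤ L ∧ Nat.card M = p * Nat.card K := by
  classical
  have : Fact p.Prime := ⟨hp⟩
  set N : AddSubgroup L := K.addSubgroupOf L with hN
  have hNc : Nat.card N = Nat.card K :=
    Nat.card_congr (AddSubgroup.addSubgroupOfEquivOfLe hKL).toEquiv
  have hQ : Nat.card (L ⧸ N) = q := by
    have h1 := AddSubgroup.card_eq_card_quotient_mul_card_addSubgroup N
    rw [hq, hNc] at h1
    have h2 : 0 < Nat.card K := Nat.card_pos
    exact (Nat.eq_of_mul_eq_mul_right h2 h1).symm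
  obtain ⟨xb, hxb⟩ := exists_prime_addOrderOf_dvd_card' (G := L ⧸ N) p (by rw [hQ]; exact hpq)
  obtain ⟨x, rfl⟩ := QuotientAddGroup.mk_surjective xb
  refine ⟨(x : G), ((AddSubgroup.zmultiples ((x : L) : L ⧸ N)).comap
    (QuotientAddGroup.mk' N)).map L.subtype, ?_, ?_, ?_, ?_⟩
  · intro h
    have h1 : x ∈ N := by rw [hN, AddSubgroup.mem_addSubgroupOf]; exact h
    have h2 : ((x : L) : L ⧸ N) = 0 := (QuotientAddGroup.eq_zero_iff _).2 h1
    rw [h2, addOrderOf_zero] at hxb
    exact hp.one_lt.ne hxb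
  · have h1 : p • ((x : L) : L ⧸ N) = 0 := by rw [← hxb]; exact addOrderOf_nsmul_eq_zero _
    rw [← QuotientAddGroup.mk_nsmul, QuotientAddGroup.eq_zero_iff, hN,
      AddSubgroup.mem_addSubgroupOf] at h1
    simpa using h1
  · intro y hy
    obtain ⟨z, _, rfl⟩ := AddSubgroup.mem_map.1 hy
    exact z.2
  · rw [Nat.card_congr (AddSubgroup.equivMapOfInjective _ L.subtype
      (AddSubgroup.subtype_injective L)).toEquiv.symm]
    set P := (AddSubgroup.zmultiples ((x : L) : L ⧸ N)).comap (QuotientAddGroup.mk' N) with hP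
    have h1 : P.index = (AddSubgroup.zmultiples ((x : L) : L ⧸ N)).index :=
      AddSubgroup.index_comap_of_surjective _ (QuotientAddGroup.mk'_surjective N)
    have h2 := AddSubgroup.card_mul_index P
    have h3 := AddSubgroup.card_mul_index (AddSubgroup.zmultiples ((x : L) : L ⧸ N))
    rw [Nat.card_zmultiples, hxb, hQ] at h3
    rw [h1, hq] at h2
    have h4 : 0 < (AddSubgroup.zmultiples ((x : L) : L ⧸ N)).index :=
      Nat.pos_of_ne_zero AddSubgroup.index_ne_zero_of_finite
    rw [← h3] at h2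
    have h5 : Nat.card P * (AddSubgroup.zmultiples ((x : L) : L ⧸ N)).index =
        (p * Nat.card K) * (AddSubgroup.zmultiples ((x : L) : L ⧸ N)).index := by
      rw [h2]; ring
    exact Nat.eq_of_mul_eq_mul_right h4 h5

/-- the primes of `q` divide the exponent -/
theorem prime_dvd {m p : ℕ} {K : AddSubgroup G} (hm : ∀ g : G, m • g ∈ K) (hp : p.Prime)
    {x : G} (hx : x ∉ K) (hpx : p • x ∈ K) : p ∣ m := by
  by_contra h
  have hc : Nat.Coprime p m := (Nat.Prime.coprime_iff_not_dvd hp).2 h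
  have h1 := Nat.gcd_eq_gcd_ab p m
  rw [Nat.Coprime] at hc
  rw [hc] at h1
  apply hx
  have h2 : x = (p.gcdA m) • (p • x) + (p.gcdB m) • (m • x) := by
    rw [← natCast_zsmul x p, ← natCast_zsmul x m, ← mul_zsmul', ← mul_zsmul', ← add_zsmul, ← h1]
    simp
  rw [h2]
  exact K.add_mem (K.zsmul_mem hpx _) (K.zsmul_mem (hm x) _)

end Pool.Agent.CA
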