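import Mathlib

/-!
# Case (a), thin region: the numbers
`t = m K' / b`, `be = b / n`, `o = w / b`, `u = - F / b²`
-/

set_option autoImplicit false

namespace Pool.Agent.CA

/-- combination of REM and the Fourier bound -/
theorem num_x (be o u r : ℝ) (hbe : be < 1) (ho : 0 ≤ o)
    (hfou : 3 - u ≤ 4 * be + 4 * r * (1 - be))
    (hrem : -u ≤ -((56 / 5 * r - 6) * o) - 13 / 5 * o ^ 2) :
    (1 - be) * (26 / 5 * o + 13 / 5 * o ^ 2 - u) ≤ 14 / 5 * o * (1 + u) := by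
  have h1 : 0 < 1 - be := by linarith
  have h2 : (1 - be) * (-u) ≤ (1 - be) * (-((56 / 5 * r - 6) * o) - 13 / 5 * o ^ 2) :=
    mul_le_mul_of_nonneg_left hrem h1.le
  have h3 : o * (3 - u - 4 * be) ≤ o * (4 * r * (1 - be)) :=
    mul_le_mul_of_nonneg_left (by linarith) ho
  nlinarith [h2, h3]

theorem cell (Q a b W U D t be o u : ℝ) (hbe : 0 ≤ be) (hQ : Q * (be * t) ≤ 1) (ha : a ≤ t)
    (hX : (1 - be) * (26 / 5 * o + 13 / 5 * o ^ 2 - u) ≤ 14 / 5 * o * (1 + u))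
    (hW : W ≤ o) (hu : u ≤ U)
    (c0 : 0 < Q * a) (c1 : 0 < D) (c2 : 1 ≤ Q * (1 - D) * a) (c3 : 0 ≤ W)
    (c4 : U ≤ 26 / 5 * W + 13 / 5 * W ^ 2) (c5 : 14 / 5 * (1 + U) ≤ 26 / 5 * D * (1 + W))
    (c6 : D * U < (26 / 5 * D - 14 / 5 * (1 + U)) * W + 13 / 5 * D * W ^ 2) (c7 : 0 < Q) :
    False := by
  have ho : 0 ≤ o := c3.trans hW
  have h1 : D ≤ 1 - be := by
    by_contra h
    push Not at h
    have h2 : 1 - D < be := by linarith
    have h3 : Q * a * (1 - D) < Q * a * be := mul_lt_mul_of_pos_left h2 c0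
    have h4 : Q * (be * a) ≤ Q * (be * t) :=
      mul_le_mul_of_nonneg_left (mul_le_mul_of_nonneg_left ha hbe) c7.le
    nlinarith
  have h2 : 0 ≤ 26 / 5 * o + 13 / 5 * o ^ 2 - u := by nlinarith
  have h3 : D * (26 / 5 * o + 13 / 5 * o ^ 2 - u) ≤ 14 / 5 * o * (1 + u) :=
    (mul_le_mul_of_nonneg_right h1 h2).trans hX
  have h4 : D * (26 / 5 * o + 13 / 5 * o ^ 2 - U) ≤ 14 / 5 * o * (1 + U) := by
    have h5 : D * u ≤ D * U := mul_le_mul_of_nonneg_left hu c1.le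
    have h6 : o * u ≤ o * U := mul_le_mul_of_nonneg_left hu ho
    nlinarith
  have h7 : 0 ≤ (o - W) * (26 / 5 * D - 14 / 5 * (1 + U) + 13 / 5 * D * (W + o)) := by
    apply mul_nonneg (by linarith)
    have : D * W ≤ D * o := mul_le_mul_of_nonneg_left hW c1.le
    nlinarith
  nlinarith

theorem u_two (a t u U : ℝ) (ha : 2 / 3 ≤ a) (hat : a ≤ t) (hu : u < (2 * t - 1) * (5 - 6 * t))
    (hU : (2 * a - 1) * (5 - 6 * a) ≤ U) : u ≤ U := by
  nlinarith [mul_nonneg (sub_nonneg.2 hat) (by linarith : (0 : ℝ) ≤ 12 * (t + a) - 16)]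

theorem u_three (c b t u U : ℝ) (hc : 0 ≤ c) (h0 : 0 ≤ t) (hb : t ≤ b) (hu : u < c * t ^ 2)
    (hU : c * b ^ 2 ≤ U) : u ≤ U := by
  have h1 : t ^ 2 ≤ b ^ 2 := by nlinarith
  have h2 : c * t ^ 2 ≤ c * b ^ 2 := mul_le_mul_of_nonneg_left h1 hc
  linarith

theorem num_A1 (t be o u : ℝ) (hbe : 0 ≤ be) (hQ : 4 * (be * t) ≤ 1)
    (h0 : (57 / 100) ≤ t) (h56 : 6 * t < 5) (ht : 9 * (1 - o) ≤ 10 * t)
    (hu1 : u < 1 / 3) (hu2 : u < (2 * t - 1) * (5 - 6 * t)) (hu3 : u < (4 / 45) * t ^ 2)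
    (hX : (1 - be) * (26 / 5 * o + 13 / 5 * o ^ 2 - u) ≤ 14 / 5 * o * (1 + u)) : False := by
  rcases le_total t (373 / 500 : ℝ) with hb0 | hb0
  · exact cell (4 : ℝ) (57 / 100 : ℝ) (373 / 500 : ℝ) (1711 / 10000 : ℝ) (99 / 2000 : ℝ) (2807 / 5000 : ℝ) t be o u hbe hQ (by linarith) hX (by linarith)
      (u_three (4 / 45 : ℝ) (373 / 500 : ℝ) t u (99 / 2000 : ℝ) (by norm_num) (by linarith) (by linarith) hu3 (by norm_num)) (by norm_num) (by norm_num) (by norm_num) (by norm_num)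
      (by norm_num) (by norm_num) (by norm_num) (by norm_num)
  exact cell (4 : ℝ) (373 / 500 : ℝ) (5 / 6 : ℝ) (37 / 500 : ℝ) (309 / 5000 : ℝ) (831 / 1250 : ℝ) t be o u hbe hQ (by linarith) hX (by linarith)
      (u_three (4 / 45 : ℝ) (5 / 6 : ℝ) t u (309 / 5000 : ℝ) (by norm_num) (by linarith) (by linarith) hu3 (by norm_num)) (by norm_num) (by norm_num) (by norm_num) (by norm_num)
      (by norm_num) (by norm_num) (by norm_num) (by norm_num)

theorem num_A2 (t be o u : ℝ) (hbe : 0 ≤ be) (hQ : 3 * (be * t) ≤ 1)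
    (h0 : (37 / 50) ≤ t) (h56 : 6 * t < 5) (ht : 9 * (1 - o) ≤ 10 * t)
    (hu1 : u < 1 / 3) (hu2 : u < (2 * t - 1) * (5 - 6 * t)) (hu3 : u < (1 / 20) * t ^ 2)
    (hX : (1 - be) * (26 / 5 * o + 13 / 5 * o ^ 2 - u) ≤ 14 / 5 * o * (1 + u)) : False := by
  rcases le_total t (63 / 80 : ℝ) with hb0 | hb0
  · exact cell (3 : ℝ) (37 / 50 : ℝ) (63 / 80 : ℝ) (1 / 8 : ℝ) (311 / 10000 : ℝ) (1099 / 2000 : ℝ) t be o u hbe hQ (by linarith) hX (by linarith)
      (u_three (1 / 20 : ℝ) (63 / 80 : ℝ) t u (311 / 10000 : ℝ) (by norm_num) (by linarith) (by linarith) hu3 (by norm_num)) (by norm_num) (by norm_num) (by norm_num) (by norm_num)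
      (by norm_num) (by norm_num) (by norm_num) (by norm_num)
  rcases le_total t (329 / 400 : ℝ) with hb1 | hb1
  · exact cell (3 : ℝ) (63 / 80 : ℝ) (329 / 400 : ℝ) (861 / 10000 : ℝ) (339 / 10000 : ℝ) (5767 / 10000 : ℝ) t be o u hbe hQ (by linarith) hX (by linarith)
      (u_three (1 / 20 : ℝ) (329 / 400 : ℝ) t u (339 / 10000 : ℝ) (by norm_num) (by linarith) (by linarith) hu3 (by norm_num)) (by norm_num) (by norm_num) (by norm_num) (by norm_num)
      (by norm_num) (by norm_num) (by norm_num) (by norm_num)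
  exact cell (3 : ℝ) (329 / 400 : ℝ) (5 / 6 : ℝ) (37 / 500 : ℝ) (87 / 2500 : ℝ) (5947 / 10000 : ℝ) t be o u hbe hQ (by linarith) hX (by linarith)
      (u_three (1 / 20 : ℝ) (5 / 6 : ℝ) t u (87 / 2500 : ℝ) (by norm_num) (by linarith) (by linarith) hu3 (by norm_num)) (by norm_num) (by norm_num) (by norm_num) (by norm_num)
      (by norm_num) (by norm_num) (by norm_num) (by norm_num)

theorem num_A3 (t be o u : ℝ) (hbe : 0 ≤ be) (hQ : 3 * (be * t) ≤ 1)
    (h0 : (37 / 50) ≤ t) (h56 : 6 * t < 5) (ht : 81 * (1 - o) ≤ 70 * t)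
    (hu1 : u < 1 / 3) (hu2 : u < (2 * t - 1) * (5 - 6 * t)) (hu3 : u < (4 / 45) * t ^ 2)
    (hX : (1 - be) * (26 / 5 * o + 13 / 5 * o ^ 2 - u) ≤ 14 / 5 * o * (1 + u)) : False := by
  exact cell (3 : ℝ) (37 / 50 : ℝ) (5 / 6 : ℝ) (1399 / 5000 : ℝ) (309 / 5000 : ℝ) (1099 / 2000 : ℝ) t be o u hbe hQ (by linarith) hX (by linarith)
      (u_three (4 / 45 : ℝ) (5 / 6 : ℝ) t u (309 / 5000 : ℝ) (by norm_num) (by linarith) (by linarith) hu3 (by norm_num)) (by norm_num) (by norm_num) (by norm_num) (by norm_num)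
      (by norm_num) (by norm_num) (by norm_num) (by norm_num)

theorem num_B (t be o u : ℝ) (hbe : 0 ≤ be) (hQ : 5 * (be * t) ≤ 1)
    (h0 : (57 / 100) ≤ t) (h56 : 6 * t < 5) (ht : 9 * (1 - o) ≤ 10 * t)
    (hu1 : u < 1 / 3) (hu2 : u < (2 * t - 1) * (5 - 6 * t)) (hu3 : u < (1 / 5) * t ^ 2)
    (hX : (1 - be) * (26 / 5 * o + 13 / 5 * o ^ 2 - u) ≤ 14 / 5 * o * (1 + u)) : False := by
  rcases le_total t (373 / 500 : ℝ) with hb0 | hb0
  · exact cell (5 : ℝ) (57 / 100 : ℝ) (373 / 500 : ℝ) (1711 / 10000 : ℝ) (557 / 5000 : ℝ) (6491 / 10000 : ℝ) t be o u hbe hQ (by linarith) hX (by linarith)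
      (u_three (1 / 5 : ℝ) (373 / 500 : ℝ) t u (557 / 5000 : ℝ) (by norm_num) (by linarith) (by linarith) hu3 (by norm_num)) (by norm_num) (by norm_num) (by norm_num) (by norm_num)
      (by norm_num) (by norm_num) (by norm_num) (by norm_num)
  rcases le_total t (797 / 1000 : ℝ) with hb1 | hb1
  · exact cell (5 : ℝ) (373 / 500 : ℝ) (797 / 1000 : ℝ) (143 / 1250 : ℝ) (1271 / 10000 : ℝ) (7319 / 10000 : ℝ) t be o u hbe hQ (by linarith) hX (by linarith)
      (u_three (1 / 5 : ℝ) (797 / 1000 : ℝ) t u (1271 / 10000 : ℝ) (by norm_num) (by linarith) (by linarith) hu3 (by norm_num)) (by norm_num) (by norm_num) (by norm_num) (by norm_num)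
      (by norm_num) (by norm_num) (by norm_num) (by norm_num)
  rcases le_total t (161 / 200 : ℝ) with hb2 | hb2
  · exact cell (5 : ℝ) (797 / 1000 : ℝ) (161 / 200 : ℝ) (211 / 2000 : ℝ) (259 / 2000 : ℝ) (749 / 1000 : ℝ) t be o u hbe hQ (by linarith) hX (by linarith)
      (u_two (797 / 1000 : ℝ) t u (259 / 2000 : ℝ) (by norm_num) (by linarith) hu2 (by norm_num)) (by norm_num) (by norm_num) (by norm_num) (by norm_num)
      (by norm_num) (by norm_num) (by norm_num) (by norm_num)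
  rcases le_total t (1653 / 2000 : ℝ) with hb3 | hb3
  · exact cell (5 : ℝ) (161 / 200 : ℝ) (1653 / 2000 : ℝ) (51 / 625 : ℝ) (1037 / 10000 : ℝ) (1503 / 2000 : ℝ) t be o u hbe hQ (by linarith) hX (by linarith)
      (u_two (161 / 200 : ℝ) t u (1037 / 10000 : ℝ) (by norm_num) (by linarith) hu2 (by norm_num)) (by norm_num) (by norm_num) (by norm_num) (by norm_num)
      (by norm_num) (by norm_num) (by norm_num) (by norm_num)
  exact cell (5 : ℝ) (1653 / 2000 : ℝ) (5 / 6 : ℝ) (37 / 500 : ℝ) (67 / 2500 : ℝ) (379 / 500 : ℝ) t be o u hbe hQ (by linarith) hX (by linarith)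
      (u_two (1653 / 2000 : ℝ) t u (67 / 2500 : ℝ) (by norm_num) (by linarith) hu2 (by norm_num)) (by norm_num) (by norm_num) (by norm_num) (by norm_num)
      (by norm_num) (by norm_num) (by norm_num) (by norm_num)

theorem num_C (t be o u : ℝ) (hbe : 0 ≤ be) (hQ : 11 * (be * t) ≤ 1)
    (h0 : (57 / 100) ≤ t) (h56 : 6 * t < 5) (ht : 9 * (1 - o) ≤ 10 * t)
    (hu1 : u < 1 / 3) (hu2 : u < (2 * t - 1) * (5 - 6 * t))
    (hX : (1 - be) * (26 / 5 * o + 13 / 5 * o ^ 2 - u) ≤ 14 / 5 * o * (1 + u)) : False := by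
  rcases le_total t (3367 / 5000 : ℝ) with hb0 | hb0
  · exact cell (11 : ℝ) (57 / 100 : ℝ) (3367 / 5000 : ℝ) (2517 / 10000 : ℝ) (1667 / 5000 : ℝ) (1681 / 2000 : ℝ) t be o u hbe hQ (by linarith) hX (by linarith)
      (by linarith) (by norm_num) (by norm_num) (by norm_num) (by norm_num)
      (by norm_num) (by norm_num) (by norm_num) (by norm_num)
  rcases le_total t (6949 / 10000 : ℝ) with hb1 | hb1
  · exact cell (11 : ℝ) (3367 / 5000 : ℝ) (6949 / 10000 : ℝ) (1139 / 5000 : ℝ) (208 / 625 : ℝ) (8649 / 10000 : ℝ) t be o u hbe hQ (by linarith) hX (by linarith)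
      (u_two (3367 / 5000 : ℝ) t u (208 / 625 : ℝ) (by norm_num) (by linarith) hu2 (by norm_num)) (by norm_num) (by norm_num) (by norm_num) (by norm_num)
      (by norm_num) (by norm_num) (by norm_num) (by norm_num)
  rcases le_total t (1761 / 2500 : ℝ) with hb2 | hb2
  · exact cell (11 : ℝ) (6949 / 10000 : ℝ) (1761 / 2500 : ℝ) (2173 / 10000 : ℝ) (1619 / 5000 : ℝ) (8691 / 10000 : ℝ) t be o u hbe hQ (by linarith) hX (by linarith)
      (u_two (6949 / 10000 : ℝ) t u (1619 / 5000 : ℝ) (by norm_num) (by linarith) hu2 (by norm_num)) (by norm_num) (by norm_num) (by norm_num) (by norm_num)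
      (by norm_num) (by norm_num) (by norm_num) (by norm_num)
  rcases le_total t (889 / 1250 : ℝ) with hb3 | hb3
  · exact cell (11 : ℝ) (1761 / 2500 : ℝ) (889 / 1250 : ℝ) (2097 / 10000 : ℝ) (3163 / 10000 : ℝ) (8709 / 10000 : ℝ) t be o u hbe hQ (by linarith) hX (by linarith)
      (u_two (1761 / 2500 : ℝ) t u (3163 / 10000 : ℝ) (by norm_num) (by linarith) hu2 (by norm_num)) (by norm_num) (by norm_num) (by norm_num) (by norm_num)
      (by norm_num) (by norm_num) (by norm_num) (by norm_num)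
  rcases le_total t (448 / 625 : ℝ) with hb4 | hb4
  · exact cell (11 : ℝ) (889 / 1250 : ℝ) (448 / 625 : ℝ) (407 / 2000 : ℝ) (387 / 1250 : ℝ) (8721 / 10000 : ℝ) t be o u hbe hQ (by linarith) hX (by linarith)
      (u_two (889 / 1250 : ℝ) t u (387 / 1250 : ℝ) (by norm_num) (by linarith) hu2 (by norm_num)) (by norm_num) (by norm_num) (by norm_num) (by norm_num)
      (by norm_num) (by norm_num) (by norm_num) (by norm_num)
  rcases le_total t (1443 / 2000 : ℝ) with hb5 | hb5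
  · exact cell (11 : ℝ) (448 / 625 : ℝ) (1443 / 2000 : ℝ) (1983 / 10000 : ℝ) (379 / 1250 : ℝ) (8731 / 10000 : ℝ) t be o u hbe hQ (by linarith) hX (by linarith)
      (u_two (448 / 625 : ℝ) t u (379 / 1250 : ℝ) (by norm_num) (by linarith) hu2 (by norm_num)) (by norm_num) (by norm_num) (by norm_num) (by norm_num)
      (by norm_num) (by norm_num) (by norm_num) (by norm_num)
  rcases le_total t (3633 / 5000 : ℝ) with hb6 | hb6
  · exact cell (11 : ℝ) (1443 / 2000 : ℝ) (3633 / 5000 : ℝ) (963 / 5000 : ℝ) (2973 / 10000 : ℝ) (8739 / 10000 : ℝ) t be o u hbe hQ (by linarith) hX (by linarith)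
      (u_two (1443 / 2000 : ℝ) t u (2973 / 10000 : ℝ) (by norm_num) (by linarith) hu2 (by norm_num)) (by norm_num) (by norm_num) (by norm_num) (by norm_num)
      (by norm_num) (by norm_num) (by norm_num) (by norm_num)
  rcases le_total t (1463 / 2000 : ℝ) with hb7 | hb7
  · exact cell (11 : ℝ) (3633 / 5000 : ℝ) (1463 / 2000 : ℝ) (117 / 625 : ℝ) (2903 / 10000 : ℝ) (2187 / 2500 : ℝ) t be o u hbe hQ (by linarith) hX (by linarith)
      (u_two (3633 / 5000 : ℝ) t u (2903 / 10000 : ℝ) (by norm_num) (by linarith) hu2 (by norm_num)) (by norm_num) (by norm_num) (by norm_num) (by norm_num)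
      (by norm_num) (by norm_num) (by norm_num) (by norm_num)
  rcases le_total t (921 / 1250 : ℝ) with hb8 | hb8
  · exact cell (11 : ℝ) (1463 / 2000 : ℝ) (921 / 1250 : ℝ) (1813 / 10000 : ℝ) (2829 / 10000 : ℝ) (8757 / 10000 : ℝ) t be o u hbe hQ (by linarith) hX (by linarith)
      (u_two (1463 / 2000 : ℝ) t u (2829 / 10000 : ℝ) (by norm_num) (by linarith) hu2 (by norm_num)) (by norm_num) (by norm_num) (by norm_num) (by norm_num)
      (by norm_num) (by norm_num) (by norm_num) (by norm_num)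
  rcases le_total t (3717 / 5000 : ℝ) with hb9 | hb9
  · exact cell (11 : ℝ) (921 / 1250 : ℝ) (3717 / 5000 : ℝ) (87 / 500 : ℝ) (343 / 1250 : ℝ) (4383 / 5000 : ℝ) t be o u hbe hQ (by linarith) hX (by linarith)
      (u_two (921 / 1250 : ℝ) t u (343 / 1250 : ℝ) (by norm_num) (by linarith) hu2 (by norm_num)) (by norm_num) (by norm_num) (by norm_num) (by norm_num)
      (by norm_num) (by norm_num) (by norm_num) (by norm_num)
  rcases le_total t (1503 / 2000 : ℝ) with hb10 | hb10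
  · exact cell (11 : ℝ) (3717 / 5000 : ℝ) (1503 / 2000 : ℝ) (33 / 200 : ℝ) (2627 / 10000 : ℝ) (8777 / 10000 : ℝ) t be o u hbe hQ (by linarith) hX (by linarith)
      (u_two (3717 / 5000 : ℝ) t u (2627 / 10000 : ℝ) (by norm_num) (by linarith) hu2 (by norm_num)) (by norm_num) (by norm_num) (by norm_num) (by norm_num)
      (by norm_num) (by norm_num) (by norm_num) (by norm_num)
  rcases le_total t (61 / 80 : ℝ) with hb11 | hb11
  · exact cell (11 : ℝ) (1503 / 2000 : ℝ) (61 / 80 : ℝ) (1527 / 10000 : ℝ) (247 / 1000 : ℝ) (879 / 1000 : ℝ) t be o u hbe hQ (by linarith) hX (by linarith)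
      (u_two (1503 / 2000 : ℝ) t u (247 / 1000 : ℝ) (by norm_num) (by linarith) hu2 (by norm_num)) (by norm_num) (by norm_num) (by norm_num) (by norm_num)
      (by norm_num) (by norm_num) (by norm_num) (by norm_num)
  rcases le_total t (1947 / 2500 : ℝ) with hb12 | hb12
  · exact cell (11 : ℝ) (61 / 80 : ℝ) (1947 / 2500 : ℝ) (673 / 5000 : ℝ) (279 / 1250 : ℝ) (8807 / 10000 : ℝ) t be o u hbe hQ (by linarith) hX (by linarith)
      (u_two (61 / 80 : ℝ) t u (279 / 1250 : ℝ) (by norm_num) (by linarith) hu2 (by norm_num)) (by norm_num) (by norm_num) (by norm_num) (by norm_num)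
      (by norm_num) (by norm_num) (by norm_num) (by norm_num)
  rcases le_total t (502 / 625 : ℝ) with hb13 | hb13
  · exact cell (11 : ℝ) (1947 / 2500 : ℝ) (502 / 625 : ℝ) (43 / 400 : ℝ) (73 / 400 : ℝ) (552 / 625 : ℝ) t be o u hbe hQ (by linarith) hX (by linarith)
      (u_two (1947 / 2500 : ℝ) t u (73 / 400 : ℝ) (by norm_num) (by linarith) hu2 (by norm_num)) (by norm_num) (by norm_num) (by norm_num) (by norm_num)
      (by norm_num) (by norm_num) (by norm_num) (by norm_num)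
  exact cell (11 : ℝ) (502 / 625 : ℝ) (5 / 6 : ℝ) (37 / 500 : ℝ) (1097 / 10000 : ℝ) (2217 / 2500 : ℝ) t be o u hbe hQ (by linarith) hX (by linarith)
      (u_two (502 / 625 : ℝ) t u (1097 / 10000 : ℝ) (by norm_num) (by linarith) hu2 (by norm_num)) (by norm_num) (by norm_num) (by norm_num) (by norm_num)
      (by norm_num) (by norm_num) (by norm_num) (by norm_num)

/-- `m = 7` -/
theorem num_Y (t be o u r : ℝ) (hbe : 0 ≤ be) (hbe1 : be < 1) (hQ : 7 * (be * t) ≤ 1)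
    (h0 : 57 / 100 ≤ t) (h56 : 6 * t < 5) (ht : 9 * (1 - o) ≤ 10 * t)
    (hu1 : u < 1 / 3) (hu2 : u < (2 * t - 1) * (5 - 6 * t))
    (hfou : 3 - u ≤ 4 * be + 4 * r * (1 - be))
    (hr : r ≤ t / 14 + 5 / 8 - 9 / 8 * o) : False := by
  have h1 : 0 < 1 - be := by linarith
  have h2 : r ≤ t / 14 - 1 / 2 + 5 / 4 * t := by linarith
  have h3 : 4 * r * (1 - be) ≤ 4 * (t / 14 - 1 / 2 + 5 / 4 * t) * (1 - be) :=
    mul_le_mul_of_nonneg_right (by linarith) h1.le
  have h4 : 3 - u ≤ 4 * be + 4 * (t / 14 - 1 / 2 + 5 / 4 * t) * (1 - be) := by linarith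
  rcases le_total t (4 / 5) with hc | hc
  · -- `u ≤ 1 / 3`
    nlinarith [mul_nonneg hbe (by linarith : (0 : ℝ) ≤ t - 57 / 100)]
  · have h5 : u ≤ 3 / 25 := u_two (4 / 5) t u (3 / 25) (by norm_num) hc hu2 (by norm_num)
    nlinarith [mul_nonneg hbe (by linarith : (0 : ℝ) ≤ t - 57 / 100)]

end Pool.Agent.CA
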