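import Mathlib
import Pool.Agent.Lib_helper59.CA.Num

/-!
# Case (a), thin region: scaling
-/

set_option autoImplicit false

namespace Pool.Agent.CA

theorem r_one (b u F : ℝ) (hb : 0 < b) (eu : u * b ^ 2 = -F) (h : -b ^ 2 < 3 * F) :
    u < 1 / 3 := by
  have h2 : u * b ^ 2 < 1 / 3 * b ^ 2 := by rw [eu]; linarith
  exact lt_of_mul_lt_mul_right h2 (by positivity)

theorem r_two (b u F t h : ℝ) (hb : 0 < b) (eu : u * b ^ 2 = -F) (et : t * b = h)
    (h1 : (2 * h - b) * (6 * h - 5 * b) < F) : u < (2 * t - 1) * (5 - 6 * t) := by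
  rw [← et] at h1
  have h2 : u * b ^ 2 < (2 * t - 1) * (5 - 6 * t) * b ^ 2 := by
    rw [eu]; nlinarith
  exact lt_of_mul_lt_mul_right h2 (by positivity)

theorem r_three (c p m k b t u F : ℝ) (hc : 0 < c) (hp : 0 ≤ p) (hk : 0 < k) (hb : 0 < b)
    (et : t * b = m * k) (eu : u * b ^ 2 = -F) (h1 : -4 * (p * k) ^ 2 < 5 * F)
    (h3 : c * p ≤ m) : u < 4 / (5 * c ^ 2) * t ^ 2 := by
  have h4 : c * (p * k) ≤ t * b := by
    rw [et, ← mul_assoc]
    exact mul_le_mul_of_nonneg_right h3 hk.le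
  have h5 : (c * (p * k)) ^ 2 ≤ (t * b) ^ 2 := pow_le_pow_left₀ (by positivity) h4 2
  have h7 : c ^ 2 * (-4 * (p * k) ^ 2) < c ^ 2 * (5 * F) :=
    mul_lt_mul_of_pos_left h1 (by positivity)
  have h8 : u * (5 * c ^ 2) < 4 * t ^ 2 := by
    have : (u * (5 * c ^ 2)) * b ^ 2 < (4 * t ^ 2) * b ^ 2 := by
      have e1 : (u * (5 * c ^ 2)) * b ^ 2 = 5 * c ^ 2 * (u * b ^ 2) := by ring
      rw [e1, eu]
      nlinarith
    exact lt_of_mul_lt_mul_right this (by positivity)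
  rw [div_mul_eq_mul_div, lt_div_iff₀ (by positivity)]
  exact h8

theorem r_fou (n b be u r F R : ℝ) (hb : 0 < b) (hn : 0 < n) (eb : be * n = b)
    (eu : u * b ^ 2 = -F) (er : r * b = R)
    (hfou : n * (F + 3 * b ^ 2) ≤ 4 * b ^ 3 + 4 * R * (n * b - b ^ 2)) :
    3 - u ≤ 4 * be + 4 * r * (1 - be) := by
  rw [← er] at hfou
  have hF : F = -(u * b ^ 2) := by rw [eu]; ring
  rw [hF] at hfou
  have h2 : (3 - u) * (n * b ^ 2) ≤ (4 * be + 4 * r * (1 - be)) * (n * b ^ 2) := by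
    have e1 : (4 * be + 4 * r * (1 - be)) * (n * b ^ 2) =
        4 * (be * n) * b ^ 2 + 4 * r * (n - be * n) * b ^ 2 := by ring
    rw [e1, eb]
    nlinarith
  exact le_of_mul_le_mul_right h2 (by positivity)

theorem r_rem (b o u r w F F' R : ℝ) (hb : 0 < b) (eo : o * b = w) (eu : u * b ^ 2 = -F)
    (er : r * b = R) (hF' : F' ≤ 0)
    (hrem : F ≤ F' - (56 / 5 * R - 6 * b) * w - 13 / 5 * w ^ 2) :
    -u ≤ -((56 / 5 * r - 6) * o) - 13 / 5 * o ^ 2 := by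
  have h1 : F ≤ -(56 / 5 * R - 6 * b) * w - 13 / 5 * w ^ 2 := by linarith
  have h2 : F = -(u * b ^ 2) := by rw [eu]; ring
  rw [h2, ← er, ← eo] at h1
  have h3 : (-u) * b ^ 2 ≤ (-((56 / 5 * r - 6) * o) - 13 / 5 * o ^ 2) * b ^ 2 := by
    nlinarith
  exact le_of_mul_le_mul_right h3 (by positivity)

theorem r_nine (b b' w m k o t x y : ℝ) (hb : 0 < b) (hw : b' + w = b) (eo : o * b = w)
    (et : t * b = m * k) (h1 : x * b' < y * (m * k)) : x * (1 - o) ≤ y * t := by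
  rw [← et] at h1
  have h3 : x * (1 - o) * b ≤ y * t * b := by
    have h4 : (1 - o) * b = b' := by rw [sub_mul, eo, one_mul]; linarith
    have e1 : x * (1 - o) * b = x * ((1 - o) * b) := by ring
    have e2 : y * t * b = y * (t * b) := by ring
    rw [e1, e2, h4]; linarith
  exact le_of_mul_le_mul_right h3 hb

theorem r_Y (b b' w c' k o t r R : ℝ) (hb : 0 < b) (hw : b' + w = b) (eo : o * b = w)
    (et : t * b = 7 * k) (er : r * b = R) (h3 : 3 * c' < 4 * k)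
    (h2 : R ≤ c' + 5 / 8 * (b' - c') - w / 2) : r ≤ t / 14 + 5 / 8 - 9 / 8 * o := by
  have h5 : r * b ≤ (t / 14 + 5 / 8 - 9 / 8 * o) * b := by
    rw [er]
    have e1 : (t / 14 + 5 / 8 - 9 / 8 * o) * b = t * b / 14 + 5 / 8 * b - 9 / 8 * (o * b) := by
      ring
    rw [e1, et, eo]
    linarith
  exact le_of_mul_le_mul_right h5 hb

end Pool.Agent.CA
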