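import Mathlib
import Pool.Agent.Lib_helper59.CA.Grp
import Pool.Agent.Lib_helper59.CA.Num2
import Pool.Agent.Lib_helper59.NEG.Main

/-!
# Case (a): the thin region is empty
-/

set_option autoImplicit false

namespace Pool.Agent.CA

open Finset Pool.Agent.GL Pool.Agent.NEG

/-- the numbers: `n = |G|`, `k = |K0|`, `q = |ker chi| / k`, `p` the smallest prime of `q` -/
theorem thin_num (m n b b' c' w k q p : ℕ) (F F' : ℤ) (R : ℝ) (hm : 7 ≤ m)
    (hb0 : 0 < b) (hbn : b < n) (hk : 0 < k) (hw : b' + w = b) (hF' : F' ≤ 0)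
    (hrem : (F : ℝ) ≤ F' - (56 / 5 * R - 6 * b) * w - 13 / 5 * (w : ℝ) ^ 2)
    (hfou : (n : ℝ) * (F + 3 * (b : ℝ) ^ 2) ≤
      4 * (b : ℝ) ^ 3 + 4 * R * (n * b - (b : ℝ) ^ 2))
    (hβ : 20 * b ≤ 9 * n)
    (hY : m = 7 → R ≤ c' + 5 / 8 * ((b' : ℝ) - c') - w / 2)
    (h56 : 6 * (m * k) < 5 * b) (h34 : 3 * c' < 4 * k)
    (h9 : 9 * b' < 10 * (m * k)) (h70 : (m - 1) / 3 = 2 → 9 * b' < 70 * k)
    (hu1 : -(b : ℤ) ^ 2 < 3 * F) (hw1 : 25 * w ≤ 9 * b)
    (hu2 : (2 * ((m * k : ℕ) : ℤ) - b) * (6 * ((m * k : ℕ) : ℤ) - 5 * b) < F)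
    (hu3 : -4 * ((p * k : ℕ) : ℤ) ^ 2 < 5 * F)
    (hnq : n = m * (q * k)) (hq3 : 3 ≤ q) (hp : p.Prime) (hpdef : p = q.minFac)
    (hpm : p ∣ m) : False := by
  have hpq : p ∣ q := by rw [hpdef]; exact Nat.minFac_dvd q
  have hpq' : p ≤ q := Nat.le_of_dvd (by omega) hpq
  have hbR : (0 : ℝ) < b := by exact_mod_cast hb0
  have hnR : (0 : ℝ) < n := by exact_mod_cast (by omega : 0 < n)
  have hkR : (0 : ℝ) < k := by exact_mod_cast hk
  have hmR : (0 : ℝ) < m := by exact_mod_cast (by omega : 0 < m)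
  have hqR : (0 : ℝ) < q := by exact_mod_cast (by omega : 0 < q)
  obtain ⟨t, ht⟩ : ∃ t : ℝ, t = m * k / b := ⟨_, rfl⟩
  obtain ⟨be, hbe⟩ : ∃ be : ℝ, be = b / n := ⟨_, rfl⟩
  obtain ⟨o, ho⟩ : ∃ o : ℝ, o = w / b := ⟨_, rfl⟩
  obtain ⟨u, hu⟩ : ∃ u : ℝ, u = -F / (b : ℝ) ^ 2 := ⟨_, rfl⟩
  obtain ⟨r, hr⟩ : ∃ r : ℝ, r = R / b := ⟨_, rfl⟩
  have et : t * b = m * k := by rw [ht]; field_simp
  have eb : be * n = b := by rw [hbe]; field_simp
  have eo : o * b = w := by rw [ho]; field_simp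
  have eu : u * (b : ℝ) ^ 2 = -F := by rw [hu]; field_simp
  have er : r * b = R := by rw [hr]; field_simp
  have hwR : (b' : ℝ) + w = b := by exact_mod_cast hw
  have hbe0 : 0 ≤ be := by rw [hbe]; positivity
  have hbe1 : be < 1 := by rw [hbe, div_lt_one hnR]; exact_mod_cast hbn
  have ho0 : 0 ≤ o := by rw [ho]; positivity
  have hQe : be * t * q = 1 := by
    have h1 : (n : ℝ) = m * (q * k) := by exact_mod_cast hnq
    rw [hbe, ht, h1]
    field_simp
  have ht0 : 0 ≤ t := by rw [ht]; positivity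
  have hbt0 : 0 ≤ be * t := mul_nonneg hbe0 ht0
  clear ht hbe ho hu hr
  have hQ : ∀ Q : ℝ, Q ≤ q → Q * (be * t) ≤ 1 := by
    intro Q hQ
    have h1 : Q * (be * t) ≤ q * (be * t) := mul_le_mul_of_nonneg_right hQ hbt0
    linarith
  -- the inequalities
  have f1 : u < 1 / 3 := r_one b u F hbR eu (by exact_mod_cast hu1)
  have f2 : u < (2 * t - 1) * (5 - 6 * t) := r_two b u F t (m * k) hbR eu et (by exact_mod_cast hu2)
  have f3 : ∀ c : ℕ, 0 < c → c * p ≤ m → u < 4 / (5 * (c : ℝ) ^ 2) * t ^ 2 := by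
    intro c hc hcp
    exact r_three c p m k b t u F (by exact_mod_cast hc) (by positivity) hkR hbR et eu
      (by exact_mod_cast hu3) (by exact_mod_cast hcp)
  have g9 : 9 * (1 - o) ≤ 10 * t :=
    r_nine b b' w m k o t 9 10 hbR hwR eo et (by exact_mod_cast h9)
  have go : o ≤ 9 / 25 := by
    have h1 : (25 : ℝ) * w ≤ 9 * b := by exact_mod_cast hw1
    have h2 : o * b ≤ 9 / 25 * b := by rw [eo]; linarith
    exact le_of_mul_le_mul_right h2 hbR
  have g0 : 57 / 100 ≤ t := by linarith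
  have g56 : 6 * t < 5 := by
    have h1 : (6 : ℝ) * (m * k) < 5 * b := by exact_mod_cast h56
    rw [← et] at h1
    have h3 : 6 * t * b < 5 * b := by linarith
    exact lt_of_mul_lt_mul_right h3 hbR.le
  have gfou : 3 - u ≤ 4 * be + 4 * r * (1 - be) := r_fou n b be u r F R hbR hnR eb eu er hfou
  have grem : -u ≤ -((56 / 5 * r - 6) * o) - 13 / 5 * o ^ 2 :=
    r_rem b o u r w F F' R hbR eo eu er (by exact_mod_cast hF') hrem
  have gX := num_x be o u r hbe1 ho0 gfou grem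
  -- the cases
  obtain ⟨c, hc⟩ := hpm
  have hc1 : 1 ≤ c := by
    rcases Nat.eq_zero_or_pos c with h | h
    · rw [h] at hc; omega
    · exact h
  rcases Nat.eq_or_lt_of_le hc1 with h1 | h1
  · -- `p = m`
    have hpm' : m = p := by rw [hc, ← h1, mul_one]
    rcases Nat.lt_or_ge m 8 with h7 | h8
    · have hm7 : m = 7 := by omega
      have hq7 : (7 : ℝ) ≤ q := by exact_mod_cast (by omega : 7 ≤ q)
      have hm7R : (m : ℝ) = 7 := by rw [hm7]; norm_num
      rw [hm7R] at et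
      exact num_Y t be o u r hbe0 hbe1 (hQ 7 hq7) g0 g56 g9 f1 f2 gfou
        (r_Y b b' w c' k o t r R hbR hwR eo et er (by exact_mod_cast h34) (hY hm7))
    · have h11 : 11 ≤ m := by
        by_contra h
        push Not at h
        rw [← hpm'] at hp
        interval_cases m <;> revert hp <;> norm_num
      have hq11 : (11 : ℝ) ≤ q := by exact_mod_cast (by omega : 11 ≤ q)
      exact num_C t be o u hbe0 (hQ 11 hq11) g0 g56 g9 f1 f2 gX
  rcases Nat.eq_or_lt_of_le (show 2 ≤ c from h1) with h2 | h2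
  · -- `2 p = m`
    have h5 : 5 ≤ p := by
      by_contra h
      push Not at h
      have h4 : p = 4 := by rw [← h2] at hc; omega
      rw [h4] at hp
      revert hp; norm_num
    have hq5 : (5 : ℝ) ≤ q := by exact_mod_cast (by omega : 5 ≤ q)
    have h3 := f3 2 (by omega) (by rw [hc, ← h2]; omega)
    norm_num at h3
    exact num_B t be o u hbe0 (hQ 5 hq5) g0 g56 g9 f1 f2 (by linarith) gX
  -- `3 p ≤ m`
  have h3 := f3 3 (by omega) (by rw [hc, mul_comm 3 p]; exact Nat.mul_le_mul_left _ h2)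
  norm_num at h3
  rcases Nat.lt_or_ge q 4 with hq4 | hq4
  · have hq' : q = 3 := by omega
    have hp3 : p = 3 := by
      rw [hpdef, hq']; exact Nat.Prime.minFac_eq Nat.prime_three
    have ht74 : 37 / 50 ≤ t := by
      have e1 : (n : ℝ) = m * (3 * k) := by rw [hnq, hq']; push_cast; ring
      have e2 : (20 : ℝ) * b ≤ 9 * n := by exact_mod_cast hβ
      have e3 : (n : ℝ) = 3 * (t * b) := by rw [e1, et]; ring
      have e4 : 37 / 50 * (b : ℝ) ≤ t * b := by
        rw [e3] at e2; linarith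
      exact le_of_mul_le_mul_right e4 hbR
    have hq3R : (3 : ℝ) ≤ q := by rw [hq']; norm_num
    rcases Nat.lt_or_ge m 10 with hm10 | hm10
    · have hm9 : m = 9 := by rw [hp3] at hc; omega
      have h7 := h70 (by omega)
      refine num_A3 t be o u hbe0 (hQ 3 hq3R) ht74 g56 ?_ f1 f2 (by linarith) gX
      refine r_nine b b' w m k o t 81 70 hbR hwR eo et ?_
      have e1 : (9 : ℝ) * b' < 70 * k := by exact_mod_cast h7
      rw [hm9]
      push_cast
      linarith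
    · have h4 := f3 4 (by omega) (by rw [hp3] at hc ⊢; omega)
      norm_num at h4
      exact num_A2 t be o u hbe0 (hQ 3 hq3R) ht74 g56 g9 f1 f2 (by linarith) gX
  · have hq4R : (4 : ℝ) ≤ q := by exact_mod_cast hq4
    exact num_A1 t be o u hbe0 (hQ 4 hq4R) g0 g56 g9 f1 f2 (by linarith) gX

theorem thin {G : Type*} [AddCommGroup G] [Fintype G] [DecidableEq G] {m : ℕ} [NeZero m]
    (hm : 7 ≤ m) (chi : G →+ ZMod m) (hchi : Function.Surjective chi) (b b' c' w : ℕ)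
    (hb0 : 0 < b) (hw : b' + w = b) (F F' : ℤ) (hBd : ¬ Bd G b F) (R : ℝ)
    (hF' : F' ≤ 0) (h13 : 5 * F + 13 * (w : ℤ) ^ 2 ≤ 5 * F')
    (hrem : (F : ℝ) ≤ F' - (56 / 5 * R - 6 * b) * w - 13 / 5 * (w : ℝ) ^ 2)
    (hfou : (Nat.card G : ℝ) * (F + 3 * (b : ℝ) ^ 2) ≤
      4 * (b : ℝ) ^ 3 + 4 * R * (Nat.card G * b - (b : ℝ) ^ 2))
    (hβ : 20 * b ≤ 9 * Nat.card G)
    (hY : m = 7 → R ≤ c' + 5 / 8 * ((b' : ℝ) - c') - w / 2)
    (K0 : AddSubgroup G) (hK0L : ∀ x ∈ K0, chi x = 0)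
    (hal : ∀ K : AddSubgroup G, (∀ x ∈ K, chi x = 0) → Nat.card K0 < Nat.card K → Al b K)
    (E : ℕ) (hEmax : ∀ t, Alive K0 t → t ≤ E) (hEal : Alive K0 E)
    (H : AddSubgroup G) (hHc : Nat.card H = E * Nat.card K0)
    (h56 : 6 * (E * Nat.card K0) < 5 * b)
    (h34 : 3 * c' < 4 * Nat.card K0)
    (h10 : 10 ≤ m → 9 * b' < 10 * ((3 * ((m - 1) / 3) + 1) * Nat.card K0))
    (h70 : (m - 1) / 3 = 2 → 9 * b' < 70 * Nat.card K0) : False := by
  classical
  obtain ⟨k, hk⟩ : ∃ k : ℕ, k = Nat.card K0 := ⟨_, rfl⟩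
  obtain ⟨n, hn⟩ : ∃ n : ℕ, n = Nat.card G := ⟨_, rfl⟩
  have hkpos : 0 < k := by rw [hk]; exact Nat.card_pos
  have hnpos : 0 < n := by rw [hn]; exact Nat.card_pos
  rw [← hn] at hβ hfou
  rw [← hk] at hHc h56 h34 h10 h70
  have hbn : b < n := by omega
  -- the density of the outer part
  have h9 : 9 * b' < 10 * (m * k) := by
    rcases Nat.lt_or_ge m 10 with h | h
    · have h2 : (m - 1) / 3 = 2 := by omega
      have h3 := h70 h2
      have h4 : 7 * k ≤ m * k := Nat.mul_le_mul_right _ hm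
      omega
    · have h2 := h10 h
      have h3 : 3 * ((m - 1) / 3) + 1 ≤ m := by omega
      have h4 : (3 * ((m - 1) / 3) + 1) * k ≤ m * k := Nat.mul_le_mul_right _ h3
      omega
  have hu1 : -(b : ℤ) ^ 2 < 3 * F := by
    by_contra h
    exact hBd (bd_third (by rw [← hn]; exact hbn) (not_lt.1 h))
  have hw1 : 25 * w ≤ 9 * b := by
    by_contra h
    push Not at h
    have h1 : (9 * (b : ℤ)) < 25 * w := by exact_mod_cast h
    have hbZ : (0 : ℤ) ≤ b := by positivity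
    nlinarith
  -- `E = m`
  have hE2 : E < 2 * m := by
    by_contra h
    push Not at h
    have h1 : 2 * m * k ≤ E * k := Nat.mul_le_mul_right _ h
    have h3 : 2 * m * k = 2 * (m * k) := by ring
    omega
  have hexp : ∀ g : G, m • g ∈ K0 := exp_nsmul chi hchi K0 hK0L (fun h => by
    have := hEmax _ h; omega)
  have hmE : m ≤ E := by
    apply hEmax
    obtain ⟨g, hg⟩ := hchi 1
    refine ⟨g, fun i h0 h1 h2 => ?_⟩
    have h3 := hK0L _ h2
    rw [map_nsmul, hg, nsmul_eq_mul, mul_one] at h3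
    have h4 := (ZMod.natCast_eq_zero_iff i m).1 h3
    exact absurd (Nat.le_of_dvd h0 h4) (by omega)
  have hEm : E = m := by
    by_contra h
    obtain ⟨g, hg⟩ := hEal
    exact hg m (by omega) (by omega) (hexp g)
  rw [hEm] at hHc h56
  -- the order of `ker chi`
  have hKL : K0 ≤ chi.ker := fun x hx => hK0L x hx
  obtain ⟨q, hq⟩ : ∃ q, Nat.card chi.ker = q * k := by
    have h1 := AddSubgroup.card_dvd_of_le hKL
    rw [← hk] at h1
    obtain ⟨q, hq⟩ := h1
    exact ⟨q, by rw [hq]; ring⟩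
  have hnq : n = m * (q * k) := by rw [hn, card_ker chi hchi, hq]
  have hq3 : 3 ≤ q := by
    by_contra h
    push Not at h
    have h1 : q * k ≤ 2 * k := Nat.mul_le_mul_right _ (by omega)
    have h2 : m * (q * k) ≤ m * (2 * k) := Nat.mul_le_mul_left _ h1
    have h3 : m * (2 * k) = 2 * (m * k) := by ring
    omega
  have hp : (q.minFac).Prime := Nat.minFac_prime (by omega)
  obtain ⟨p, hpdef⟩ : ∃ p, p = q.minFac := ⟨_, rfl⟩
  rw [← hpdef] at hp
  have hpq : p ∣ q := by rw [hpdef]; exact Nat.minFac_dvd q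
  obtain ⟨x, M, hx, hpx, hML, hMc⟩ := exists_between K0 chi.ker hKL q p (by rw [hq, hk]) hp hpq
  have hpm : p ∣ m := prime_dvd hexp hp hx hpx
  rw [← hk] at hMc
  have hM : Al b M := hal M (fun y hy => hML hy) (by
    rw [hMc, ← hk]
    have := hp.two_le
    nlinarith)
  have hu3 : -4 * ((p * k : ℕ) : ℤ) ^ 2 < 5 * F := by
    by_contra h
    apply hBd
    apply bd_al hM
    rw [hMc]
    exact not_lt.1 h
  -- the subgroup `H`
  have hHne : H ≠ ⊤ := by
    rintro rfl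
    rw [AddSubgroup.card_top, ← hn] at hHc
    omega
  have hu2 : (2 * ((m * k : ℕ) : ℤ) - b) * (6 * ((m * k : ℕ) : ℤ) - 5 * b) < F := by
    by_contra h
    apply hBd
    refine ⟨_, WII_above hHne (by rw [hHc]; omega) (by rw [hHc]; omega), ?_⟩
    rw [hHc]
    exact not_lt.1 h
  exact thin_num m n b b' c' w k q p F F' R hm hb0 hbn hkpos hw hF' hrem hfou hβ hY h56 h34 h9
    h70 hu1 hw1 hu2 hu3 hnq hq3 hp hpdef hpm

end Pool.Agent.CA
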