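import Mathlib
import Pool.Agent.Lib_helper59.CA.Thin
import Pool.Agent.Lib_helper59.KE2.KW
import Pool.Agent.Lib_helper25.PR.GL3
import Pool.Agent.Lib_helper25.PR.PS
import Pool.Agent.Lib_helper28.ST.Near

/-!
# Case (a) of sets with outer elements: `7 |B'_0| ≤ 4 |B'|`, `m ≥ 7`, `20 b ≤ 9 n`
-/

set_option autoImplicit false

namespace Pool.Agent.CA

open Finset Pool.Agent.Lib_helper13.PL Pool.Agent.POS Pool.Agent.GL Pool.Agent.NEG Pool.Agent.KE

/-- `K0` is a dead subgroup of `ker chi` of maximal order; the conclusion is the bound, or `B'_0`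
is close to an alive subgroup -/
theorem case_a3 {G : Type*} [AddCommGroup G] [Fintype G] [DecidableEq G] {m : ℕ} [NeZero m]
    (hm : 7 ≤ m) (chi : G →+ ZMod m) (hchi : Function.Surjective chi) (B B' : Finset G) (w : ℕ)
    (hb0 : 0 < B.card) (hw : B'.card + w = B.card) (hB' : NoWrap chi B')
    (h74 : 7 * (lev chi B' 0).card ≤ 4 * B'.card) (R : ℝ)
    (hrem : (GL.FF B : ℝ) ≤ GL.FF B' - (56 / 5 * R - 6 * B.card) * w - 13 / 5 * (w : ℝ) ^ 2)
    (hfou : (Nat.card G : ℝ) * (GL.FF B + 3 * (B.card : ℝ) ^ 2) ≤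
      4 * (B.card : ℝ) ^ 3 + 4 * R * (Nat.card G * B.card - (B.card : ℝ) ^ 2))
    (hβ : 20 * B.card ≤ 9 * Nat.card G)
    (K0 : AddSubgroup G) (hK0L : ∀ x ∈ K0, chi x = 0) (hK0 : ¬ Al B.card K0)
    (hmax : ∀ H : AddSubgroup G, (∀ x ∈ H, chi x = 0) → ¬ Al B.card H → Nat.card H ≤ Nat.card K0)
    (E : ℕ) (hE : m ≤ E) (H : AddSubgroup G) (hHc : Nat.card H = E * Nat.card K0)
    (h56 : 6 * (E * Nat.card K0) < 5 * B.card)
    (hdead : 4 * Nat.card K0 ≤ 3 * (lev chi B' 0).card ∨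
      12 * ((3 * ((m - 1) / 3) + 1) * Nat.card K0) ≤ 10 * B'.card ∨
      (10 ≤ m ∧ 10 * ((3 * ((m - 1) / 3) + 1) * Nat.card K0) ≤ 9 * B'.card) ∨
      ((m - 1) / 3 = 2 ∧ 70 * Nat.card K0 ≤ 9 * B'.card)) :
    Bd G B.card (GL.FF B) ∨
    ∃ (K : AddSubgroup G) (KK : Finset G), (∀ t ∈ K, chi t = 0) ∧ (∀ x, x ∈ KK ↔ x ∈ K) ∧
      Nat.card K0 < Nat.card K ∧ Al B.card K ∧
      4 * (((KK \ lev chi B' 0).card : ℤ) + ((lev chi B' 0 \ KK).card : ℤ)) < Nat.card K := by
  classical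
  by_cases hBd : Bd G B.card (GL.FF B)
  · exact Or.inl hBd
  have hal : ∀ K : AddSubgroup G, (∀ x ∈ K, chi x = 0) → Nat.card K0 < Nat.card K →
      Al B.card K := by
    intro K hK hlt
    by_contra hh
    exact absurd (hmax K hK hh) (by omega)
  have hkpos : 0 < Nat.card K0 := Nat.card_pos
  have hbn : B.card < Nat.card G := by omega
  -- the smallest order above the dead ones
  obtain ⟨h, hh1, hord, hval⟩ : ∃ h : ℕ, 1 ≤ h ∧ (∀ H : AddSubgroup G, (∀ t ∈ H, chi t = 0) →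
      Nat.card H ≤ Nat.card K0 ∨ h ≤ Nat.card H) ∧
      (5 * GL.FF B ≤ -4 * (h : ℤ) ^ 2 → Bd G B.card (GL.FF B)) := by
    by_cases hex : ∃ K : AddSubgroup G, (∀ x ∈ K, chi x = 0) ∧ Nat.card K0 < Nat.card K
    · obtain ⟨K1, hK1L, hK1, hmin⟩ : ∃ K : AddSubgroup G, (∀ x ∈ K, chi x = 0) ∧
          Nat.card K0 < Nat.card K ∧ ∀ H : AddSubgroup G, (∀ x ∈ H, chi x = 0) →
            Nat.card K0 < Nat.card H → Nat.card K ≤ Nat.card H := by
        obtain ⟨K2, hK2⟩ := hex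
        have hfin : Finite (AddSubgroup G) := inferInstance
        obtain ⟨K, hK, hmin⟩ := Set.exists_min_image
          {K : AddSubgroup G | (∀ x ∈ K, chi x = 0) ∧ Nat.card K0 < Nat.card K}
          (fun K => Nat.card K) (Set.toFinite _) ⟨K2, hK2⟩
        exact ⟨K, hK.1, hK.2, fun H hH1 hH2 => hmin H ⟨hH1, hH2⟩⟩
      refine ⟨Nat.card K1, Nat.card_pos, fun H hH => ?_, fun hF => bd_al (hal K1 hK1L hK1) hF⟩
      rcases le_or_gt (Nat.card H) (Nat.card K0) with h1 | h1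
      · exact Or.inl h1
      · exact Or.inr (hmin H hH h1)
    · push Not at hex
      refine ⟨Nat.card G, by omega, fun H hH => Or.inl (hex H hH), fun hF => bd_third hbn ?_⟩
      have h1 : (B.card : ℤ) ≤ Nat.card G := by exact_mod_cast hbn.le
      have h2 : (0 : ℤ) ≤ B.card := by positivity
      nlinarith
  have hle : GL.FF B ≤ GL.FF B' := by
    have h1 := kappa_nonneg hm chi hchi hb0 hβ (GL.FF B) hBd R hfou
    have h2 := le_of_kappa (B.card : ℝ) w (GL.FF B) (GL.FF B') R (by positivity) h1 hrem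
    exact_mod_cast h2
  rcases kstar_struct3 chi B' hB' h74 (Nat.card K0 : ℤ) (h : ℤ) (by exact_mod_cast hkpos)
    (by exact_mod_cast hh1)
    (by
      rcases hdead with h1 | h1 | ⟨h1, h2⟩ | ⟨h1, h2⟩
      · left; exact_mod_cast h1
      · right; left; exact_mod_cast h1
      · right; right; left; exact ⟨h1, by exact_mod_cast h2⟩
      · right; right; right; exact ⟨h1, by exact_mod_cast h2⟩)
    (fun H hH => by
      rcases hord H hH with h1 | h1
      · left; exact_mod_cast h1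
      · right; exact_mod_cast h1) with h1 | h1 | ⟨K, KK, hK1, hK2, hK3, hK4, hK5⟩
  · left
    refine outer_no_bonus hm chi hchi B B' w hw hB' ?_ R hrem hfou hβ (Nat.card K0) E hE H hHc
      h56 h1
    omega
  · left
    exact hval (by linarith)
  · right
    exact ⟨K, KK, hK1, hK2, by exact_mod_cast hK3, hal K hK1 (by exact_mod_cast hK3), hK5⟩

/-- numbers for a dead subgroup in the positive regime -/
theorem pos_dead_num (m j : ℕ) (b b' w k s F F' : ℤ) (hm : 7 ≤ m) (hj : 3 * j < m) (hk : 0 < k)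
    (hw : b' + w = b) (h6 : 6 * (m * k) < 5 * b) (hs : 0 ≤ s) (h5s : 5 * s < k)
    (hb' : b' = (2 * j + 1) * k + s ∨ b' + s = (2 * j + 1) * k)
    (hF' : F' ≤ (k - s) * (k - 5 * s)) (h13 : 5 * F + 13 * w ^ 2 ≤ 5 * F')
    (h3 : -b ^ 2 < 3 * F) : False := by
  have hmZ : (7 : ℤ) ≤ m := by exact_mod_cast hm
  have hjZ : 3 * (j : ℤ) + 1 ≤ m := by exact_mod_cast hj
  have h1 : (3 * (j : ℤ) + 1) * k ≤ m * k := mul_le_mul_of_nonneg_right hjZ hk.le
  have h2 : 7 * k ≤ m * k := mul_le_mul_of_nonneg_right hmZ hk.le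
  have h4 : 5 * b' ≤ 5 * ((2 * j + 1) * k) + k := by rcases hb' with h | h <;> linarith
  have h5 : 105 * b' ≤ 78 * (m * k) := by nlinarith
  have h6' : 126 * b' ≤ 78 * b := by linarith
  have hF1 : F' ≤ k ^ 2 := by nlinarith
  have h7 : 42 * k < 5 * b := by linarith
  have hb : 0 < b := by linarith
  have h8 : 48 * b ≤ 126 * w := by linarith
  have h9 : (8 * b) ^ 2 ≤ (21 * w) ^ 2 := pow_le_pow_left₀ (by linarith) (by linarith) 2
  have h10 : (42 * k) ^ 2 ≤ (5 * b) ^ 2 := pow_le_pow_left₀ (by linarith) (by linarith) 2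
  nlinarith

/-- **Case (a).** -/
theorem case_A {G : Type*} [AddCommGroup G] [Fintype G] [DecidableEq G] {m : ℕ} [NeZero m]
    (hm : 7 ≤ m) (chi : G →+ ZMod m) (hchi : Function.Surjective chi)
    (IH : ∀ M : AddSubgroup G, M ≠ ⊤ → ∀ B' : Finset M, GL.Bd M B'.card (GL.FF B'))
    (B : Finset G) (hb0 : 0 < B.card) (B' : Finset G)
    (hB'def : B' = B.filter (fun x => 3 * |ST.hg chi x| < (m : ℤ))) (w : ℕ)
    (hwdef : w = (B.filter (fun x => (m : ℤ) ≤ 3 * |ST.hg chi x|)).card)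
    (h74 : 7 * (lev chi B' 0).card ≤ 4 * B'.card) (R : ℝ)
    (hrem : (GL.FF B : ℝ) ≤ GL.FF B' - (56 / 5 * R - 6 * B.card) * w - 13 / 5 * (w : ℝ) ^ 2)
    (hfou : (Nat.card G : ℝ) * (GL.FF B + 3 * (B.card : ℝ) ^ 2) ≤
      4 * (B.card : ℝ) ^ 3 + 4 * R * (Nat.card G * B.card - (B.card : ℝ) ^ 2))
    (hβ : 20 * B.card ≤ 9 * Nat.card G)
    (hY : m = 7 → R ≤ (lev chi B' 0).card +
      5 / 8 * ((B'.card : ℝ) - (lev chi B' 0).card) - (w : ℝ) / 2) :
    Bd G B.card (GL.FF B) := by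
  classical
  by_contra hBd
  have hbn : B.card < Nat.card G := by omega
  have hw : B'.card + w = B.card := by
    rw [hB'def, hwdef]
    rw [← card_union_of_disjoint, filter_union_right]
    · congr 1
      ext x
      simp only [mem_filter, and_iff_left_iff_imp]
      intro _
      exact lt_or_ge _ _
    · rw [disjoint_filter]
      intro x _ h1 h2
      omega
  have hB' : NoWrap chi B' := by
    intro x hx
    rw [hB'def, mem_filter] at hx
    exact hx.2
  have hbR : (0 : ℝ) < B.card := by exact_mod_cast hb0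
  have hκ := kappa_nonneg hm chi hchi hb0 hβ (GL.FF B) hBd R hfou
  have h13 : 5 * GL.FF B + 13 * (w : ℤ) ^ 2 ≤ 5 * GL.FF B' := by
    have h1 : 0 ≤ (56 / 5 * R - 6 * B.card) * (w : ℝ) := by
      apply mul_nonneg _ (by positivity)
      linarith
    have h2 : 5 * (GL.FF B : ℝ) + 13 * (w : ℝ) ^ 2 ≤ 5 * GL.FF B' := by linarith
    exact_mod_cast h2
  -- Theorem ST
  have near : ∀ (K : AddSubgroup G) (KK : Finset G), (∀ x ∈ K, chi x = 0) →
      (∀ x, x ∈ KK ↔ x ∈ K) →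
      4 * (((KK \ lev chi B' 0).card : ℤ) + ((lev chi B' 0 \ KK).card : ℤ)) ≤ Nat.card K →
      5 * GL.FF B ≤ -4 * (Nat.card K : ℤ) ^ 2 := by
    intro K KK hKL hKK h4
    by_contra hF
    have hKKc : KK.card = Nat.card K := by
      rw [Nat.card_eq_fintype_card]
      have : KK = univ.filter (fun x => x ∈ K) := by ext x; simp [hKK]
      rw [this, Fintype.card_subtype]
    apply hBd
    refine ST.st_near chi hchi (by omega) IH B K KK hKK hKL B' hB'def (w : ℤ)
      (by rw [hwdef]) (by rw [hKKc]; exact h4) h13 (by rw [hKKc]; exact not_le.1 hF) ?_ ?_ ?_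
    · have : 4 * (lev chi B' 0).card ≤ 3 * B'.card := by omega
      exact_mod_cast this
    · have : 7 * (lev chi B' 0).card ≤ 4 * B.card := by omega
      exact_mod_cast this
    · omega
  have posn : ∀ (K : AddSubgroup G) (KK : Finset G), (∀ x ∈ K, chi x = 0) →
      (∀ x, x ∈ KK ↔ x ∈ K) →
      9 * (((KK \ lev chi B' 0).card : ℤ) + ((lev chi B' 0 \ KK).card : ℤ)) < KK.card →
      5 * GL.FF B ≤ -4 * (Nat.card K : ℤ) ^ 2 := by
    intro K KK hKL hKK h9
    have hKKc : KK.card = Nat.card K := by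
      rw [Nat.card_eq_fintype_card]
      have : KK = univ.filter (fun x => x ∈ K) := by ext x; simp [hKK]
      rw [this, Fintype.card_subtype]
    apply near K KK hKL hKK
    rw [← hKKc]
    have h1 : (0 : ℤ) ≤ ((KK \ lev chi B' 0).card : ℤ) + ((lev chi B' 0 \ KK).card : ℤ) := by
      positivity
    linarith
  have h43 : 4 * (lev chi B' 0).card ≤ 3 * B'.card := by omega
  have hle : GL.FF B ≤ GL.FF B' := by
    have : (0 : ℤ) ≤ (w : ℤ) ^ 2 := by positivity
    linarith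
  have hu1 : -(B.card : ℤ) ^ 2 < 3 * GL.FF B := by
    by_contra h
    exact hBd (bd_third hbn (not_lt.1 h))
  -- `F(B) ≤ 0`
  have hF0 : GL.FF B ≤ 0 := by
    by_contra h
    push Not at h
    obtain ⟨K, KK, j, s, hKL, hKK, h9, _, _, _, _, _, _⟩ :=
      pos_struct chi B' hB' h43 (by linarith)
    have h1 := posn K KK hKL hKK h9
    have h2 : (0 : ℤ) ≤ (Nat.card K : ℤ) ^ 2 := by positivity
    linarith
  -- the dead subgroups
  by_cases hd : ∃ K : AddSubgroup G, (∀ x ∈ K, chi x = 0) ∧ ¬ Al B.card K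
  swap
  · push Not at hd
    exact hBd (bd_of (al_bot (hd ⊥ (by
      intro x hx
      rw [AddSubgroup.mem_bot] at hx
      rw [hx, map_zero]))) hF0)
  obtain ⟨K0, hK0L, hK0, hmax⟩ : ∃ K : AddSubgroup G, (∀ x ∈ K, chi x = 0) ∧ ¬ Al B.card K ∧
      ∀ H : AddSubgroup G, (∀ x ∈ H, chi x = 0) → ¬ Al B.card H → Nat.card H ≤ Nat.card K := by
    obtain ⟨K0, hK0⟩ := hd
    have hfin : Finite (AddSubgroup G) := inferInstance
    obtain ⟨K, hK, hmax⟩ := Set.exists_max_image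
      {K : AddSubgroup G | (∀ x ∈ K, chi x = 0) ∧ ¬ Al B.card K}
      (fun K => Nat.card K) (Set.toFinite _) ⟨K0, hK0⟩
    exact ⟨K, hK.1, hK.2, fun H hH1 hH2 => hmax H ⟨hH1, hH2⟩⟩
  obtain ⟨E, hE1, hEmax, hEal, H, hKH, hHc, hS⟩ := exists_level K0
  have hkpos : 0 < Nat.card K0 := Nat.card_pos
  have hmE : m ≤ E := by
    apply hEmax
    obtain ⟨g, hg⟩ := hchi 1
    refine ⟨g, fun i h0 h1 h2 => ?_⟩
    have h3 := hK0L _ h2
    rw [map_nsmul, hg, nsmul_eq_mul, mul_one] at h3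
    have h4 := (ZMod.natCast_eq_zero_iff i m).1 h3
    exact absurd (Nat.le_of_dvd h0 h4) (by omega)
  by_cases h56 : 5 * B.card ≤ 6 * (E * Nat.card K0)
  · exact hBd (bd_of (dead_big hbn hK0 hEal hHc hS h56) hF0)
  push Not at h56
  have hal : ∀ K : AddSubgroup G, (∀ x ∈ K, chi x = 0) → Nat.card K0 < Nat.card K →
      Al B.card K := by
    intro K hK hlt
    by_contra hh
    exact absurd (hmax K hK hh) (by omega)
  by_cases hF1 : 1 ≤ GL.FF B'
  · obtain ⟨K, KK, j, s, hKL, hKK, h9, hj1, hjm, hs0, hs5, hbs, hFs⟩ :=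
      pos_struct chi B' hB' h43 hF1
    have h1 := posn K KK hKL hKK h9
    have hKKc : KK.card = Nat.card K := by
      rw [Nat.card_eq_fintype_card]
      have : KK = univ.filter (fun x => x ∈ K) := by ext x; simp [hKK]
      rw [this, Fintype.card_subtype]
    by_cases hK : Al B.card K
    · exact hBd (bd_al hK h1)
    have h2 := hmax K hKL hK
    have h3 : m * Nat.card K ≤ E * Nat.card K0 := Nat.mul_le_mul hmE h2
    rw [hKKc] at hs5 hbs hFs
    refine pos_dead_num m j (B.card : ℤ) (B'.card : ℤ) (w : ℤ) (Nat.card K : ℤ) s (GL.FF B)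
      (GL.FF B') hm hjm (by exact_mod_cast (Nat.card_pos : 0 < Nat.card K))
      (by exact_mod_cast hw) ?_ hs0 hs5 hbs hFs h13 hu1
    have : 6 * (m * Nat.card K) < 5 * B.card := by omega
    exact_mod_cast this
  push Not at hF1
  have hF'0 : GL.FF B' ≤ 0 := by linarith
  by_cases hdead : 4 * Nat.card K0 ≤ 3 * (lev chi B' 0).card ∨
      12 * ((3 * ((m - 1) / 3) + 1) * Nat.card K0) ≤ 10 * B'.card ∨
      (10 ≤ m ∧ 10 * ((3 * ((m - 1) / 3) + 1) * Nat.card K0) ≤ 9 * B'.card) ∨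
      ((m - 1) / 3 = 2 ∧ 70 * Nat.card K0 ≤ 9 * B'.card)
  · rcases case_a3 hm chi hchi B B' w hb0 hw hB' h74 R hrem hfou hβ K0 hK0L hK0 hmax E hmE H
      hHc h56 hdead with h | ⟨K, KK, hKL, hKK, _, hK, h4⟩
    · exact hBd h
    · exact hBd (bd_al hK (near K KK hKL hKK h4.le))
  · push Not at hdead
    obtain ⟨d1, _, d3, d4⟩ := hdead
    exact thin hm chi hchi B.card B'.card (lev chi B' 0).card w hb0 hw (GL.FF B) (GL.FF B') hBd R
      hF'0 h13 hrem hfou hβ hY K0 hK0L hal E hEmax hEal H hHc h56 d1 d3 d4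

end Pool.Agent.CA
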