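import Mathlib
import Pool.Agent.Lib_helper13.PL.FOU2
import Pool.Agent.Lib_helper25.POS.Defs
import Pool.Agent.Lib_helper28.ST.Defs

/-!
# The real part for `m = 7`
-/

set_option autoImplicit false

namespace Pool.Agent.CA

open Finset Pool.Agent.Lib_helper13.PL Pool.Agent.POS

theorem cos_seven : Real.cos (2 * Real.pi / 7) ≤ 5 / 8 := by
  obtain ⟨t, ht⟩ : ∃ t : ℝ, t = 2 * Real.pi / 7 := ⟨_, rfl⟩
  rw [← ht]
  have h7 : 4 * t = 2 * Real.pi - 3 * t := by rw [ht]; ring
  have h1 : Real.cos (4 * t) = Real.cos (3 * t) := by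
    rw [h7, Real.cos_two_pi_sub]
  have h2 : Real.cos (4 * t) = 2 * (2 * Real.cos t ^ 2 - 1) ^ 2 - 1 := by
    rw [← Real.cos_two_mul, ← Real.cos_two_mul]; congr 1; ring
  have h3 : Real.cos (3 * t) = 4 * Real.cos t ^ 3 - 3 * Real.cos t := Real.cos_three_mul t
  have h4 : Real.cos t < 1 := by
    have hpi := Real.pi_pos
    have h5 : Real.cos t < Real.cos 0 := by
      apply Real.cos_lt_cos_of_nonneg_of_le_pi le_rfl
      · rw [ht]; linarith
      · rw [ht]; positivity
    rwa [Real.cos_zero] at h5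
  set c := Real.cos t with hc
  have h5 : (c - 1) * (8 * c ^ 3 + 4 * c ^ 2 - 4 * c - 1) = 0 := by
    have : 2 * (2 * c ^ 2 - 1) ^ 2 - 1 = 4 * c ^ 3 - 3 * c := by rw [← h2, ← h3, h1]
    linarith
  have h6 : 8 * c ^ 3 + 4 * c ^ 2 - 4 * c - 1 = 0 := by
    rcases mul_eq_zero.1 h5 with h | h
    · linarith
    · exact h
  by_contra h
  push Not at h
  nlinarith [mul_pos (sub_pos.2 h) (sub_pos.2 h)]

theorem re_Y {G : Type*} [AddCommGroup G] [Fintype G] [DecidableEq G] {m : ℕ} [NeZero m]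
    (hm : m = 7) (chi : G →+ ZMod m) (χ : AddChar G ℂ) (hstd : Std χ chi) (B B' : Finset G)
    (hB'def : B' = B.filter (fun x => 3 * |ST.hg chi x| < (m : ℤ))) (w : ℕ)
    (hwdef : w = (B.filter (fun x => (m : ℤ) ≤ 3 * |ST.hg chi x|)).card) :
    (hat B χ).re ≤ (lev chi B' 0).card +
      5 / 8 * ((B'.card : ℝ) - (lev chi B' 0).card) - (w : ℝ) / 2 := by
  subst hm
  rw [hat_re_eq B hstd]
  have hpi := Real.pi_pos
  have hpt : ∀ x ∈ B, Real.cos (2 * Real.pi * (chi x).valMinAbs / (7 : ℕ)) ≤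
      (if 3 * |ST.hg chi x| < ((7 : ℕ) : ℤ) then (5 / 8 : ℝ) else 0) +
      (if chi x = 0 then (3 / 8 : ℝ) else 0) -
      (if ((7 : ℕ) : ℤ) ≤ 3 * |ST.hg chi x| then (1 / 2 : ℝ) else 0) := by
    intro x _
    unfold ST.hg
    generalize chi x = z
    have hcos : ∀ v : ℤ, Real.cos (2 * Real.pi * ((|v| : ℤ) : ℝ) / (7 : ℕ)) =
        Real.cos (2 * Real.pi * v / (7 : ℕ)) := by
      intro v
      rcases abs_choice v with h | h
      · rw [h]
      · rw [h]
        have : 2 * Real.pi * ((-v : ℤ) : ℝ) / (7 : ℕ) = -(2 * Real.pi * v / (7 : ℕ)) := by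
          push_cast; ring
        rw [this, Real.cos_neg]
    rw [← hcos]
    have hc0 : Real.cos (2 * Real.pi * (0 : ℤ) / (7 : ℕ)) = 1 := by simp
    have hc1 : Real.cos (2 * Real.pi * (1 : ℤ) / (7 : ℕ)) ≤ 5 / 8 := by
      have : 2 * Real.pi * ((1 : ℤ) : ℝ) / (7 : ℕ) = 2 * Real.pi / 7 := by push_cast; ring
      rw [this]; exact cos_seven
    have hc2 : Real.cos (2 * Real.pi * (2 : ℤ) / (7 : ℕ)) ≤ 5 / 8 := by
      have : Real.cos (2 * Real.pi * (2 : ℤ) / (7 : ℕ)) ≤ 0 := by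
        apply Real.cos_nonpos_of_pi_div_two_le_of_le
        · push_cast; linarith
        · push_cast; linarith
      linarith
    have hc3 : Real.cos (2 * Real.pi * (3 : ℤ) / (7 : ℕ)) ≤ -(1 / 2) := by
      have h1 : Real.cos (2 * Real.pi * (3 : ℤ) / (7 : ℕ)) ≤ Real.cos (Real.pi - Real.pi / 3) := by
        apply Real.cos_le_cos_of_nonneg_of_le_pi
        · linarith
        · push_cast; linarith
        · push_cast; linarith
      rw [Real.cos_pi_sub, Real.cos_pi_div_three] at h1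
      exact h1
    have hz : (z = 0 ∧ |z.valMinAbs| = 0) ∨ (z ≠ 0 ∧ |z.valMinAbs| = 1) ∨
        (z ≠ 0 ∧ |z.valMinAbs| = 2) ∨ (z ≠ 0 ∧ |z.valMinAbs| = 3) := by
      revert z; decide
    rcases hz with ⟨h1, h2⟩ | ⟨h1, h2⟩ | ⟨h1, h2⟩ | ⟨h1, h2⟩
    · rw [h2, hc0, if_pos h1, if_pos (by norm_num), if_neg (by norm_num)]
      norm_num
    · rw [h2, if_neg h1, if_pos (by norm_num), if_neg (by norm_num)]
      linarith
    · rw [h2, if_neg h1, if_pos (by norm_num), if_neg (by norm_num)]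
      linarith
    · rw [h2, if_neg h1, if_neg (by norm_num), if_pos (by norm_num)]
      linarith
  refine (Finset.sum_le_sum hpt).trans ?_
  rw [Finset.sum_sub_distrib, Finset.sum_add_distrib, ← Finset.sum_filter, ← Finset.sum_filter,
    ← Finset.sum_filter, Finset.sum_const, Finset.sum_const, Finset.sum_const, ← hB'def, ← hwdef]
  have h0 : lev chi B' 0 = B.filter (fun x => chi x = 0) := by
    rw [hB'def]
    unfold lev
    rw [filter_filter]
    refine filter_congr fun x _ => ?_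
    constructor
    · exact fun h => h.2
    · intro h
      refine ⟨?_, h⟩
      unfold ST.hg
      rw [h]
      simp
  rw [h0]
  simp only [nsmul_eq_mul]
  linarith

end Pool.Agent.CA
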